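import Mathlib

set_option autoImplicit false

/-! Roots of unity in a field `k` such that `k(μ_{p^n})` has small degree over `k`. -/

namespace Pool.Agent.Y159.ZP

open IntermediateField

/-- `4` for `p = 2` and `p` for odd `p` -/
def qq (p : ℕ) : ℕ := if p = 2 then 4 else p

theorem lte {p : ℕ} (hp : p.Prime) {a : ℤ} (ha : (qq p : ℤ) ∣ a - 1) (m : ℕ) :
    emultiplicity (p : ℤ) (a ^ p ^ m - 1) = emultiplicity (p : ℤ) (a - 1) + m := by
  have hpp : Prime (p : ℤ) := Nat.prime_iff_prime_int.mp hp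
  have hpa : (p : ℤ) ∣ a - 1 := by
    refine Dvd.dvd.trans ?_ ha
    unfold qq
    split_ifs with h
    · rw [h]; norm_num
    · exact dvd_rfl
  have hna : ¬ (p : ℤ) ∣ a := by
    intro h
    have h1 := dvd_sub h hpa
    have e : a - (a - 1) = 1 := by ring
    rw [e] at h1
    exact hpp.not_isUnit (isUnit_of_dvd_one h1)
  have h1 : (1 : ℤ) ^ p ^ m = 1 := one_pow _
  rcases eq_or_ne p 2 with rfl | h2
  · have h3 : (4 : ℤ) ∣ a - 1 := by
      have : (qq 2 : ℤ) = 4 := by unfold qq; norm_num
      rwa [this] at ha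
    have := Int.two_pow_two_pow_sub_pow_two_pow m h3 (by exact_mod_cast hna)
    rw [one_pow] at this
    exact_mod_cast this
  · have hodd : Odd p := hp.odd_of_ne_two h2
    have := emultiplicity_pow_prime_pow_sub_pow_prime_pow hpp hodd hpa hna m
    rwa [one_pow] at this

theorem lte_up {p : ℕ} (hp : p.Prime) {a : ℤ} (ha : (qq p : ℤ) ∣ a - 1) (n : ℕ) :
    (p : ℤ) ^ n ∣ a ^ p ^ n - 1 := by
  apply pow_dvd_of_le_emultiplicity
  rw [lte hp ha n]
  exact le_add_self

theorem lte_down {p : ℕ} (hp : p.Prime) {a : ℤ} (ha : (qq p : ℤ) ∣ a - 1) {m n : ℕ} (hmn : m ≤ n)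
    (h : (p : ℤ) ^ n ∣ a ^ p ^ m - 1) : (p : ℤ) ^ (n - m) ∣ a - 1 := by
  have h1 := le_emultiplicity_of_pow_dvd h
  rw [lte hp ha m] at h1
  apply pow_dvd_of_le_emultiplicity
  rcases eq_or_ne (emultiplicity (p : ℤ) (a - 1)) ⊤ with h2 | h2
  · rw [h2]; exact le_top
  · lift emultiplicity (p : ℤ) (a - 1) to ℕ using h2 with c hc
    have h3 : n ≤ c + m := by exact_mod_cast h1
    have h4 : n - m ≤ c := by omega
    exact_mod_cast h4

variable {k Ω : Type*} [Field k] [Field Ω] [Algebra k Ω]

/-- a root of unity fixed by all automorphisms -/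
theorem mem_of_small (p : ℕ) (hp : p.Prime) (n m : ℕ) (hmn : m ≤ n) (hn : 2 ≤ n)
    (L : IntermediateField k Ω) (hL : ∀ w : Ω, w ^ (2 * p) = 1 → w ∈ L) (ζ : Ω)
    (hζ : IsPrimitiveRoot ζ (p ^ n)) (hD : Module.finrank L (IntermediateField.adjoin L {ζ}) < p ^ m) :
    ζ ^ p ^ m ∈ L := by
  have hp0 : 0 < p := hp.pos
  have hpn : 0 < p ^ n := pow_pos hp0 n
  have hne : NeZero (p ^ n) := ⟨hpn.ne'⟩
  set F := IntermediateField.adjoin L {ζ} with hF
  have hζF : ζ ∈ F := IntermediateField.mem_adjoin_simple_self L ζ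
  have hint : IsIntegral L ζ :=
    IsIntegral.of_pow hpn (by rw [hζ.pow_eq_one]; exact isIntegral_one)
  have hcyc : IsCyclotomicExtension {p ^ n} L F := by
    change IsCyclotomicExtension {p ^ n} L F.toSubalgebra
    rw [hF, IntermediateField.adjoin_simple_toSubalgebra_of_isAlgebraic hint.isAlgebraic]
    exact hζ.adjoin_isCyclotomicExtension L
  have hgal : IsGalois L F := IsCyclotomicExtension.isGalois {p ^ n} L F
  have hfd : FiniteDimensional L F := IsCyclotomicExtension.finiteDimensional {p ^ n} L F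
  set z : F := ⟨ζ, hζF⟩ with hz
  have hzp : IsPrimitiveRoot z (p ^ n) := by
    rw [← IsPrimitiveRoot.coe_submonoidClass_iff]
    exact hζ
  have hfix : ∀ σ : F ≃ₐ[L] F, σ (z ^ p ^ m) = z ^ p ^ m := by
    intro σ
    have h1 : (σ z) ^ (p ^ n) = 1 := by rw [← map_pow, hzp.pow_eq_one, map_one]
    obtain ⟨a, -, ha⟩ := hzp.eq_pow_of_pow_eq_one h1
    have hpow : ∀ i : ℕ, (σ ^ i) z = z ^ a ^ i := by
      intro i
      induction i with
      | zero => simp
      | succ i ih =>
        rw [pow_succ', AlgEquiv.mul_apply, ih, map_pow, ← ha, ← pow_mul, pow_succ']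
    -- `a = 1` modulo `q`
    have hq : qq p ∣ p ^ n := by
      unfold qq
      split_ifs with h
      · rw [h]
        exact (by norm_num : (4 : ℕ) = 2 ^ 2) ▸ pow_dvd_pow 2 hn
      · exact dvd_pow_self p (by omega)
    obtain ⟨c, hc⟩ := hq
    have hc0 : 0 < c := Nat.pos_of_ne_zero (by rintro rfl; omega)
    have hqa : (qq p : ℤ) ∣ (a : ℤ) - 1 := by
      have h2 : (ζ ^ c) ^ (2 * p) = 1 := by
        rw [← pow_mul]
        have : p ^ n ∣ c * (2 * p) := by
          rw [hc]
          unfold qq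
          split_ifs with h
          · rw [h]; exact ⟨1, by ring⟩
          · exact ⟨2, by ring⟩
        obtain ⟨d, hd⟩ := this
        rw [hd, pow_mul, hζ.pow_eq_one, one_pow]
      have h3 : ζ ^ c ∈ L := hL _ h2
      have h4 : σ (z ^ c) = z ^ c := by
        have e : z ^ c = algebraMap L F ⟨ζ ^ c, h3⟩ := by
          apply Subtype.ext
          rfl
        rw [e, AlgEquiv.commutes]
      rw [map_pow, ← ha, ← pow_mul] at h4
      have h5 : z ^ (a * c) = z ^ (1 * c) := by rw [h4, one_mul]
      have hord : orderOf z = p ^ n := hzp.eq_orderOf.symm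
      have h6 : a * c ≡ 1 * c [MOD p ^ n] := by
        have := (pow_eq_pow_iff_modEq (x := hzp.isUnit hpn.ne' |>.unit) (n := a * c) (m := 1 * c)).mp (by
          apply Units.ext
          push_cast
          exact h5)
        rwa [← orderOf_units, IsUnit.unit_spec, hord] at this
      rw [hc] at h6
      have h7 : a ≡ 1 [MOD qq p] := Nat.ModEq.mul_right_cancel' hc0.ne' h6
      exact (Nat.modEq_iff_dvd.mp h7.symm)
    -- the order of `σ`
    have hσn : σ ^ (p ^ n) = 1 := by
      have h2 := lte_up hp hqa n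
      have h3 : (σ ^ (p ^ n)) z = z := by
        rw [hpow]
        have h4 : a ^ p ^ n ≡ 1 [MOD p ^ n] := by
          apply Nat.ModEq.symm
          rw [Nat.modEq_iff_dvd]
          push_cast
          exact h2
        have h5 := (pow_eq_pow_iff_modEq (x := hzp.isUnit hpn.ne' |>.unit) (n := a ^ p ^ n) (m := 1)).mpr (by
          rw [← orderOf_units, IsUnit.unit_spec, hzp.eq_orderOf.symm]
          exact h4)
        have h6 := congrArg Units.val h5
        push_cast at h6
        simpa using h6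
      have h7 : ((σ ^ (p ^ n) : F ≃ₐ[L] F) : F →ₐ[L] F) = ((1 : F ≃ₐ[L] F) : F →ₐ[L] F) := by
        refine IntermediateField.algHom_ext_of_eq_adjoin L hF ?_
        rintro x hx
        obtain rfl : x = ζ := hx
        exact h3
      exact AlgEquiv.ext fun x => DFunLike.congr_fun h7 x
    have hord : orderOf σ ∣ p ^ n := orderOf_dvd_of_pow_eq_one hσn
    obtain ⟨j, hj, hoj⟩ := (Nat.dvd_prime_pow hp).mp hord
    have hle : orderOf σ ≤ Module.finrank L F := by
      rw [← IsGalois.card_aut_eq_finrank L F]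
      exact Nat.le_of_dvd Nat.card_pos (orderOf_dvd_natCard σ)
    have hjm : j < m := by
      rw [hoj] at hle
      exact (Nat.pow_lt_pow_iff_right hp.one_lt).mp (lt_of_le_of_lt hle hD)
    have hσm : σ ^ (p ^ m) = 1 := by
      apply orderOf_dvd_iff_pow_eq_one.mp
      rw [hoj]
      exact pow_dvd_pow p hjm.le
    have h2 : z ^ a ^ p ^ m = z := by
      rw [← hpow, hσm]; rfl
    have h3 : (p : ℤ) ^ n ∣ (a : ℤ) ^ p ^ m - 1 := by
      have h4 := (pow_eq_pow_iff_modEq (x := hzp.isUnit hpn.ne' |>.unit) (n := a ^ p ^ m) (m := 1)).mp (by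
        apply Units.ext
        push_cast
        simpa using h2)
      rw [← orderOf_units, IsUnit.unit_spec, hzp.eq_orderOf.symm] at h4
      have := (Nat.modEq_iff_dvd.mp h4.symm)
      push_cast at this
      exact this
    have h4 := lte_down hp hqa hmn h3
    rw [map_pow, ← ha, ← pow_mul]
    have h5 : a * p ^ m ≡ p ^ m [MOD p ^ n] := by
      apply Nat.ModEq.symm
      rw [Nat.modEq_iff_dvd]
      push_cast
      obtain ⟨d, hd⟩ := h4
      refine ⟨d, ?_⟩
      have e : (p : ℤ) ^ n = p ^ (n - m) * p ^ m := by rw [← pow_add]; congr 1; omega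
      rw [e]
      have : (a : ℤ) * p ^ m - p ^ m = (a - 1) * p ^ m := by ring
      rw [this, hd]; ring
    have h6 := (pow_eq_pow_iff_modEq (x := hzp.isUnit hpn.ne' |>.unit) (n := a * p ^ m) (m := p ^ m)).mpr (by
      rw [← orderOf_units, IsUnit.unit_spec, hzp.eq_orderOf.symm]
      exact h5)
    have h7 := congrArg Units.val h6
    push_cast at h7
    simpa using h7
  have hbot : z ^ p ^ m ∈ (⊥ : IntermediateField L F) := (IsGalois.mem_bot_iff_fixed _).mpr hfix
  obtain ⟨y, hy⟩ := IntermediateField.mem_bot.mp hbot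
  have : ζ ^ p ^ m = (y : Ω) := by
    have := congrArg (fun t : F => (t : Ω)) hy
    simpa using this.symm
  rw [this]
  exact y.2

/-- the degree does not grow when the base field is enlarged -/
theorem finrank_le (L : IntermediateField k Ω) (ζ : Ω) (hζ : IsIntegral k ζ)
    (S : Set Ω) (hS : ζ ∈ S) [FiniteDimensional k (IntermediateField.adjoin k S)] :
    Module.finrank L (IntermediateField.adjoin L {ζ}) ≤
      Module.finrank k (IntermediateField.adjoin k S) := by
  have hL : IsIntegral L ζ := hζ.tower_top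
  rw [IntermediateField.adjoin.finrank hL]
  have h1 : (minpoly L ζ).natDegree ≤ (minpoly k ζ).natDegree := by
    have h2 := minpoly.dvd_map_of_isScalarTower k L ζ
    have h3 : (minpoly k ζ).map (algebraMap k L) ≠ 0 := by
      rw [Polynomial.map_ne_zero_iff (algebraMap k L).injective]
      exact minpoly.ne_zero hζ
    have h4 := Polynomial.natDegree_le_of_dvd h2 h3
    rwa [Polynomial.natDegree_map] at h4
  refine h1.trans ?_
  rw [← IntermediateField.adjoin.finrank hζ]
  have h5 : IntermediateField.adjoin k {ζ} ≤ IntermediateField.adjoin k S :=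
    IntermediateField.adjoin.mono k _ _ (Set.singleton_subset_iff.mpr hS)
  exact Submodule.finrank_mono (s := (IntermediateField.adjoin k {ζ}).toSubmodule)
    (t := (IntermediateField.adjoin k S).toSubmodule) h5

/-- If `k(μ_{p^n})` has degree less than `p ^ m` over `k` then `k(μ_{2p})` contains the `p^(n-m)`-th
roots of unity. -/
theorem mem_adjoin [IsAlgClosed Ω] [CharZero Ω] (p : ℕ) (hp : p.Prime) (n m : ℕ)
    [FiniteDimensional k (IntermediateField.adjoin k {w : Ω | w ^ p ^ n = 1})]
    (hD : Module.finrank k (IntermediateField.adjoin k {w : Ω | w ^ p ^ n = 1}) < p ^ m)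
    (w : Ω) (hw : w ^ p ^ (n - m) = 1) :
    w ∈ IntermediateField.adjoin k {w : Ω | w ^ (2 * p) = 1} := by
  have hsmall : n - m ≤ 1 → w ∈ IntermediateField.adjoin k {w : Ω | w ^ (2 * p) = 1} := by
    intro h
    apply IntermediateField.subset_adjoin
    have h1 : p ^ (n - m) ∣ 2 * p := by
      have : n - m = 0 ∨ n - m = 1 := by omega
      rcases this with h | h
      · rw [h]; exact one_dvd _
      · rw [h, pow_one]; exact dvd_mul_left p 2
    obtain ⟨c, hc⟩ := h1
    change w ^ (2 * p) = 1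
    rw [hc, pow_mul, hw, one_pow]
  by_cases h1 : n - m ≤ 1
  · exact hsmall h1
  have hpn : 0 < p ^ n := pow_pos hp.pos n
  have : NeZero (p ^ n) := ⟨hpn.ne'⟩
  have : NeZero ((p ^ n : ℕ) : Ω) := ⟨by exact_mod_cast hpn.ne'⟩
  obtain ⟨ζ, hζ⟩ := HasEnoughRootsOfUnity.exists_primitiveRoot Ω (p ^ n)
  have hint : IsIntegral k ζ :=
    IsIntegral.of_pow hpn (by rw [hζ.pow_eq_one]; exact isIntegral_one)
  set L := IntermediateField.adjoin k {w : Ω | w ^ (2 * p) = 1} with hL
  have h2 := finrank_le L ζ hint {w : Ω | w ^ p ^ n = 1} hζ.pow_eq_one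
  have h3 : ζ ^ p ^ m ∈ L := mem_of_small p hp n m (by omega) (by omega) L
    (fun w hw => IntermediateField.subset_adjoin _ _ hw) ζ hζ (h2.trans_lt hD)
  have h4 : IsPrimitiveRoot (ζ ^ p ^ m) (p ^ (n - m)) :=
    hζ.pow hpn (by rw [← pow_add]; congr 1; omega)
  have : NeZero (p ^ (n - m)) := ⟨(pow_pos hp.pos _).ne'⟩
  obtain ⟨i, -, hi⟩ := h4.eq_pow_of_pow_eq_one hw
  rw [← hi]
  exact pow_mem h3 i

end Pool.Agent.Y159.ZP
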