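import Mathlib
import Pool.Agent.W90.ZT.Core
import Pool.Agent.Y159.ZP.Mu

set_option autoImplicit false

/-! Divisibility of the degree by a power of `p`. -/

namespace Pool.Agent.Y159.ZP

open IntermediateField Pool.Agent.H707R3 Pool.Agent.H387R3.ZT

theorem arith {p : ℕ} (hp : p.Prime) {x r n m : ℕ} (hx : x ≠ 0) (hr0 : 0 < r) (hr : r < p ^ m)
    (h : p ^ n ∣ x * r) : p ^ (n - m) ∣ x := by
  have : Fact p.Prime := ⟨hp⟩
  have h4 : n ≤ padicValNat p (x * r) := by
    rwa [padicValNat_dvd_iff_le (mul_ne_zero hx hr0.ne')] at h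
  rw [padicValNat.mul hx hr0.ne'] at h4
  have h5 : padicValNat p r < m := by
    by_contra hcon
    push Not at hcon
    have h6 : p ^ m ∣ r := (padicValNat_dvd_iff_le hr0.ne').2 hcon
    exact absurd (Nat.le_of_dvd hr0 h6) (by omega)
  rw [padicValNat_dvd_iff_le hx]
  omega

variable {p : ℕ} [Fact p.Prime]

/-- the degree of a field containing the `p ^ (n + 1)`-th roots of unity -/
theorem totient_dvd_finrank (L : IntermediateField ℚ_[p] ℂ_[p]) [FiniteDimensional ℚ_[p] L] {n : ℕ}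
    {z : ℂ_[p]} (hz : IsPrimitiveRoot z (p ^ (n + 1))) (hzL : z ∈ L) :
    Nat.totient (p ^ (n + 1)) ∣ Module.finrank ℚ_[p] L := by
  have hp : p.Prime := Fact.out
  have hzint : IsIntegral ℚ_[p] z :=
    IsIntegral.of_pow (pow_pos hp.pos (n + 1)) (by rw [hz.pow_eq_one]; exact isIntegral_one)
  have hint : ∀ α ∈ ({z} : Multiset ℂ_[p]), IsIntegral ℚ_[p] α := by
    intro α hα
    rw [Multiset.mem_singleton] at hα
    rw [hα]; exact hzint
  let Q : IntermediateField ℚ_[p] ℂ_[p] := genField {z}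
  have hQz : z ∈ Q := by
    show z ∈ genField {z}
    exact IntermediateField.subset_adjoin _ _ (by simp)
  have hQ0 : ramIdx Q ≠ 0 := ramIdx_ne_zero {z} hint
  have hge : Nat.totient (p ^ (n + 1)) ≤ ramIdx Q := totient_le_ramIdx hz hQz hQ0
  have hset : {α : ℂ_[p] | α ∈ ({z} : Multiset ℂ_[p])} = {z} := by
    ext x; simp
  have hle1 : ramIdx Q ≤ Module.finrank ℚ_[p] Q := ramIdx_le_finrank {z} hint
  have hQe : Q = ℚ_[p]⟮z⟯ := by
    show genField {z} = _
    rw [genField, hset]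
  have hle : Module.finrank ℚ_[p] Q ≤ Nat.totient (p ^ (n + 1)) := by
    rw [hQe, IntermediateField.adjoin.finrank hzint]
    have hdvd : minpoly ℚ_[p] z ∣ Polynomial.cyclotomic (p ^ (n + 1)) ℚ_[p] := by
      apply minpoly.dvd
      rw [Polynomial.aeval_def, Polynomial.eval₂_eq_eval_map, Polynomial.map_cyclotomic]
      have hne : NeZero ((p ^ (n + 1) : ℕ) : ℂ_[p]) := ⟨by
        exact_mod_cast (pow_ne_zero (n + 1) hp.ne_zero : p ^ (n + 1) ≠ 0)⟩
      exact (Polynomial.isRoot_cyclotomic_iff.2 hz)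
    have := Polynomial.natDegree_le_of_dvd hdvd (Polynomial.cyclotomic_ne_zero _ _)
    rwa [Polynomial.natDegree_cyclotomic] at this
  have heq : Module.finrank ℚ_[p] Q = Nat.totient (p ^ (n + 1)) :=
    le_antisymm hle (hge.trans hle1)
  rw [← heq]
  have hQL : Q ≤ L := by
    rw [hQe, IntermediateField.adjoin_simple_le_iff]
    exact hzL
  exact IntermediateField.finrank_dvd_of_le_right hQL

/-- If `K(μ_{p^(n+1)})` has degree less than `p ^ m` over `K` then `p ^ (n - m)` divides `[K : ℚ_p]`. -/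
theorem pow_dvd_finrank (K : IntermediateField ℚ_[p] ℂ_[p]) [FiniteDimensional ℚ_[p] K] {n m : ℕ}
    (h1 : FiniteDimensional K (IntermediateField.adjoin K {w : ℂ_[p] | w ^ p ^ (n + 1) = 1}))
    (h2 : Module.finrank K (IntermediateField.adjoin K {w : ℂ_[p] | w ^ p ^ (n + 1) = 1}) < p ^ m) :
    p ^ (n - m) ∣ Module.finrank ℚ_[p] K := by
  have hp : p.Prime := Fact.out
  have hpn : 0 < p ^ (n + 1) := pow_pos hp.pos _
  have : NeZero (p ^ (n + 1)) := ⟨hpn.ne'⟩
  have : NeZero ((p ^ (n + 1) : ℕ) : ℂ_[p]) := ⟨by exact_mod_cast hpn.ne'⟩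
  obtain ⟨z, hz⟩ := HasEnoughRootsOfUnity.exists_primitiveRoot ℂ_[p] (p ^ (n + 1))
  set M := IntermediateField.adjoin K {w : ℂ_[p] | w ^ p ^ (n + 1) = 1} with hM
  have hzM : z ∈ M := IntermediateField.subset_adjoin _ _ hz.pow_eq_one
  have hfd : FiniteDimensional ℚ_[p] (M.restrictScalars ℚ_[p]) := FiniteDimensional.trans ℚ_[p] K M
  have h3 : Nat.totient (p ^ (n + 1)) ∣ Module.finrank ℚ_[p] (M.restrictScalars ℚ_[p]) :=
    totient_dvd_finrank _ hz hzM
  have h4 : Module.finrank ℚ_[p] K * Module.finrank K M =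
      Module.finrank ℚ_[p] (M.restrictScalars ℚ_[p]) := Module.finrank_mul_finrank ℚ_[p] K M
  rw [← h4, Nat.totient_prime_pow_succ hp] at h3
  exact arith hp (Module.finrank_pos).ne' Module.finrank_pos h2 ((dvd_mul_right _ _).trans h3)

end Pool.Agent.Y159.ZP
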